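import Mathlib
import Pool.Agent.Lib.MP_563419_an.Defs
import Pool.Agent.Lib.MP_563419_an.NoRetraction
import Pool.Agent.Lib.MP_563419_an.Jacobian

open MvPolynomial Sum Pool.Agent.Lib.MP_563419_an

namespace Pool.Agent.Results.MP_563419_an.AffineSpace

/-- Index set of the coordinates `(x, y; z_0, ..., z_k)` of `ℂ^(k+3)`. -/
abbrev Idx (k : ℕ) : Type := Fin 2 ⊕ Fin (k + 1)

/-- `X ⊆ ℂ^(k+3)`: the union of the plane `z = 0` and the surfaces `xy = 1, z_i = 0 (i ≠ j)`,
given by the equations `z_i z_j = 0` (`i ≠ j`) and `z_i (x y - 1) = 0`. -/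
def Xset (k : ℕ) : Set (Idx k → ℂ) :=
  {p | (∀ i j : Fin (k + 1), i ≠ j → p (inr i) * p (inr j) = 0) ∧
    ∀ i : Fin (k + 1), p (inr i) * (p (inl 0) * p (inl 1) - 1) = 0}

section Affine

variable (k : ℕ)

lemma vanishing_univ : vanishingIdeal ℂ (Set.univ : Set (Idx k → ℂ)) = ⊥ := by
  have : (Set.univ : Set (Idx k → ℂ)) = zeroLocus ℂ (⊥ : Ideal (MvPolynomial (Idx k) ℂ)) := by
    rw [zeroLocus_bot]; rfl
  rw [this]
  exact MvPolynomial.IsPrime.vanishingIdeal_zeroLocus _

lemma preserves_bot (D : Derivation ℂ (MvPolynomial (Idx k) ℂ) (MvPolynomial (Idx k) ℂ)) :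
    ∀ x ∈ (⊥ : Ideal (MvPolynomial (Idx k) ℂ)), D x ∈ (⊥ : Ideal (MvPolynomial (Idx k) ℂ)) := by
  intro x hx
  rw [Ideal.mem_bot] at hx
  rw [hx, map_zero]
  exact Ideal.zero_mem _

abbrev A : Type := MvPolynomial (Idx k) ℂ ⧸ (⊥ : Ideal (MvPolynomial (Idx k) ℂ))

noncomputable def P (j : Idx k) : Derivation ℂ (A k) (A k) :=
  descend ⊥ (pderiv j) (preserves_bot k _)

noncomputable abbrev x (i : Idx k) : A k :=
  Ideal.Quotient.mk (⊥ : Ideal (MvPolynomial (Idx k) ℂ)) (X i)

lemma P_x (j i : Idx k) : P k j (x k i) = if i = j then 1 else 0 := by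
  simp only [P, x, descend_mk]
  rw [pderiv_X, Pi.single_apply]
  by_cases h : i = j
  · subst h; simp
  · simp [h]

lemma lnd_P (j) : IsLND (P k j) := by
  refine isLND_of_gen fun i => ⟨2, ?_⟩
  change P k j (P k j (x k i)) = 0
  rw [P_x]
  split_ifs
  · exact Derivation.map_one_eq_zero _
  · exact map_zero _

lemma smul_P_mem (j) (g : A k) : g • P k j ∈ overshearLie (A k) := by
  obtain ⟨i, hi⟩ : ∃ i : Idx k, i ≠ j := by
    by_cases h : j = inl 0
    · exact ⟨inl 1, by rw [h]; simp⟩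
    · exact ⟨inl 0, fun h' => h h'.symm⟩
  refine smul_mem_of_pderiv i (preserves_bot k _) (lnd_P k j) ?_ g
  change P k j (x k i) = 0
  rw [P_x, if_neg hi]

theorem lie_eq_top : overshearLie (A k) = ⊤ := by
  rw [eq_top_iff]
  intro D _
  refine decomp_mem (D1 := P k (inl 0)) (D2 := P k (inl 0)) (D3 := P k (inl 0)) (P := P k)
    (k1 := 0) (k2 := 0) (k3 := 0) (c := fun j => D (x k j))
    (smul_P_mem k _) (smul_P_mem k _) (smul_P_mem k _) (smul_P_mem k) (der_decomp ?_)
  intro i
  have hs : ∑ j, D (x k j) * P k j (x k i) = D (x k i) := by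
    rw [Finset.sum_eq_single i]
    · rw [P_x, if_pos rfl, mul_one]
    · intro j _ hj
      rw [P_x, if_neg (Ne.symm hj), mul_zero]
    · intro h; exact absurd (Finset.mem_univ i) h
  change D (x k i) = 0 * P k (inl 0) (x k i) + 0 * P k (inl 0) (x k i)
    + 0 * P k (inl 0) (x k i) + ∑ j, D (x k j) * P k j (x k i)
  rw [hs]
  ring

lemma manifold_univ : IsAffineManifold (Set.univ : Set (Idx k → ℂ)) := by
  refine ⟨⟨∅, by simp⟩, ?_, ?_⟩
  · have : ∀ J : Ideal (MvPolynomial (Idx k) ℂ), J = ⊥ → IsDomain (MvPolynomial (Idx k) ℂ ⧸ J) := by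
      rintro J rfl
      exact Ideal.Quotient.isDomain ⊥
    exact this _ (vanishing_univ k)
  · have : ∀ J : Ideal (MvPolynomial (Idx k) ℂ), J = ⊥ →
        Algebra.Smooth ℂ (MvPolynomial (Idx k) ℂ ⧸ J) := by
      rintro J rfl
      have h : Algebra.Smooth ℂ (MvPolynomial (Idx k) ℂ) := ⟨inferInstance, inferInstance⟩
      exact Algebra.Smooth.of_equiv (AlgEquiv.quotientBot ℂ (MvPolynomial (Idx k) ℂ)).symm
    exact this _ (vanishing_univ k)

lemma aosdp_univ : HasAOSDP (Set.univ : Set (Idx k → ℂ)) := by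
  have : ∀ J : Ideal (MvPolynomial (Idx k) ℂ), J = ⊥ →
      overshearLie (MvPolynomial (Idx k) ℂ ⧸ J) = ⊤ := by
    rintro J rfl; exact lie_eq_top k
  exact this _ (vanishing_univ k)

end Affine

section Final

variable (k : ℕ)

lemma algebraic_X : IsAlgebraicSet (Xset k) := by
  refine ⟨{f | ∃ i j : Fin (k + 1), i ≠ j ∧ f = X (inr i) * X (inr j)} ∪
    Set.range (fun i : Fin (k + 1) => X (inr i) * (X (inl 0) * X (inl 1) - 1)), ?_⟩
  ext p
  constructor
  · rintro ⟨h1, h2⟩ f hf
    rcases hf with ⟨i, j, hij, rfl⟩ | ⟨i, rfl⟩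
    · simp only [map_mul, eval_X]; exact h1 i j hij
    · simp only [map_mul, map_sub, map_one, eval_X]; exact h2 i
  · intro h
    refine ⟨fun i j hij => ?_, fun i => ?_⟩
    · have := h _ (Or.inl ⟨i, j, hij, rfl⟩)
      simpa only [map_mul, eval_X] using this
    · have := h _ (Or.inr ⟨i, rfl⟩)
      simpa only [map_mul, map_sub, map_one, eval_X] using this

/-- `(x, y; z_0, z_1, ...) ↦ (x, y; a z_0, z_1, ...)` -/
def scale (a : ℂ) (p : Idx k → ℂ) : Idx k → ℂ := fun i => if i = inr 0 then a * p i else p i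

lemma scale_l (a : ℂ) (p : Idx k → ℂ) (i : Fin 2) : scale k a p (inl i) = p (inl i) := by
  simp [scale]

lemma scale_0 (a : ℂ) (p : Idx k → ℂ) : scale k a p (inr 0) = a * p (inr 0) := by
  simp [scale]

lemma scale_r (a : ℂ) (p : Idx k → ℂ) {i : Fin (k + 1)} (h : i ≠ 0) :
    scale k a p (inr i) = p (inr i) := by
  simp [scale, h]

lemma scale_mem (a : ℂ) {p : Idx k → ℂ} (hp : p ∈ Xset k) : scale k a p ∈ Xset k := by
  obtain ⟨h1, h2⟩ := hp
  refine ⟨fun i j hij => ?_, fun i => ?_⟩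
  · by_cases hi : i = 0
    · subst hi
      rw [scale_0, scale_r k a p (Ne.symm hij), mul_assoc, h1 _ _ hij, mul_zero]
    · by_cases hj : j = 0
      · subst hj
        rw [scale_0, scale_r k a p hi]
        linear_combination a * h1 _ _ hij
      · rw [scale_r k a p hi, scale_r k a p hj]; exact h1 _ _ hij
  · rw [scale_l, scale_l]
    by_cases hi : i = 0
    · subst hi
      rw [scale_0, mul_assoc, h2, mul_zero]
    · rw [scale_r k a p hi]; exact h2 i

lemma scale_scale (a b : ℂ) {p : Idx k → ℂ} (h : a * b * p (inr 0) = p (inr 0)) :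
    scale k a (scale k b p) = p := by
  funext i
  by_cases hi : i = inr 0
  · subst hi
    rw [scale_0, scale_0, ← mul_assoc]; exact h
  · simp [scale, hi]

/-- the automorphism of `X` given by `(x, y; z_0, z_1, ...) ↦ (x, y; x z_0, z_1, ...)` -/
def phi : Xset k ≃ Xset k where
  toFun p := ⟨scale k ((p : Idx k → ℂ) (inl 0)) p, scale_mem k _ p.2⟩
  invFun p := ⟨scale k ((p : Idx k → ℂ) (inl 1)) p, scale_mem k _ p.2⟩
  left_inv p := by
    apply Subtype.ext
    have h := p.2.2 0
    simp only [scale_l]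
    refine scale_scale k _ _ ?_
    linear_combination h
  right_inv p := by
    apply Subtype.ext
    have h := p.2.2 0
    simp only [scale_l]
    refine scale_scale k _ _ ?_
    linear_combination h

lemma phi_alg : IsAlgebraicIso (phi k) := by
  constructor
  · refine ⟨fun i => if i = inr 0 then X (inl 0) * X i else X i, ?_⟩
    intro p i
    change scale k ((p : Idx k → ℂ) (inl 0)) p i = _
    by_cases h : i = inr 0 <;> simp [scale, h]
  · refine ⟨fun i => if i = inr 0 then X (inl 1) * X i else X i, ?_⟩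
    intro p i
    change scale k ((p : Idx k → ℂ) (inl 1)) p i = _
    by_cases h : i = inr 0 <;> simp [scale, h]

lemma differentiable_of_hol {Φ : ↥(Set.univ : Set (Idx k → ℂ)) → (Idx k → ℂ)}
    (h : IsHolomorphicMap Φ) : Differentiable ℂ (fun p => Φ ⟨p, Set.mem_univ p⟩) := by
  intro p
  obtain ⟨U, hU, hp, F, hF, hΦ⟩ := h ⟨p, Set.mem_univ p⟩
  refine (hF.differentiableAt (hU.mem_nhds hp)).congr_of_eventuallyEq ?_
  filter_upwards [hU.mem_nhds hp] with q hq
  exact hΦ ⟨q, Set.mem_univ q⟩ hq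

/-- the curve `(ζ̄, ζ; 0)` -/
noncomputable def curve (ζ : ℂ) : Idx k → ℂ := Sum.elim ![(starRingEnd ℂ) ζ, ζ] (fun _ => 0)

lemma continuous_curve : Continuous (curve k) := by
  refine continuous_pi ?_
  rintro (i | j)
  · fin_cases i
    · exact Complex.continuous_conj
    · exact continuous_id
  · exact continuous_const

lemma mem_line {ζ : ℂ} (hζ : (starRingEnd ℂ) ζ * ζ = 1) (i : Idx k) (s : ℂ) :
    curve k ζ + s • Pi.single i 1 ∈ Xset k := by
  rcases i with i | j
  · have h0 : ∀ j : Fin (k + 1), (curve k ζ + s • (Pi.single (inl i) 1 : Idx k → ℂ)) (inr j) = 0 := by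
      intro j
      simp [curve]
    refine ⟨fun a b _ => ?_, fun a => ?_⟩
    · rw [h0 a, zero_mul]
    · rw [h0 a, zero_mul]
  · have h0 : ∀ a : Fin (k + 1), a ≠ j →
        (curve k ζ + s • (Pi.single (inr j) 1 : Idx k → ℂ)) (inr a) = 0 := by
      intro a ha
      have : (inr a : Idx k) ≠ inr j := fun h => ha (Sum.inr_injective h)
      simp [curve, this]
    refine ⟨fun a b hab => ?_, fun a => ?_⟩
    · by_cases ha : a = j
      · have hb : b ≠ j := fun h => hab (ha.trans h.symm)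
        rw [h0 b hb, mul_zero]
      · rw [h0 a ha, zero_mul]
    · have e0 : (curve k ζ + s • (Pi.single (inr j) 1 : Idx k → ℂ)) (inl 0) = (starRingEnd ℂ) ζ := by
        simp [curve]
      have e1 : (curve k ζ + s • (Pi.single (inr j) 1 : Idx k → ℂ)) (inl 1) = ζ := by
        simp [curve]
      rw [e0, e1, hζ]; ring

/-- the eigenvalues of the derivative -/
noncomputable def eig (ζ : ℂ) (i : Idx k) : ℂ := if i = inr 0 then (starRingEnd ℂ) ζ else 1

lemma scale_line {ζ : ℂ} (i : Idx k) (s : ℂ) :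
    scale k ((curve k ζ + s • (Pi.single i 1 : Idx k → ℂ)) (inl 0))
      (curve k ζ + s • (Pi.single i 1 : Idx k → ℂ))
      = curve k ζ + (s * eig k ζ i) • (Pi.single i 1 : Idx k → ℂ) := by
  funext a
  by_cases ha : a = inr 0
  · subst ha
    rw [scale_0]
    by_cases hi : i = inr 0
    · subst hi
      simp [curve, eig]
      ring
    · simp [curve, Ne.symm hi]
  · have : scale k ((curve k ζ + s • (Pi.single i 1 : Idx k → ℂ)) (inl 0))
      (curve k ζ + s • (Pi.single i 1 : Idx k → ℂ)) a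
      = (curve k ζ + s • (Pi.single i 1 : Idx k → ℂ)) a := by
      simp [scale, ha]
    rw [this]
    by_cases hai : a = i
    · subst hai
      simp [eig, ha]
    · simp [hai]

theorem no_ext (Φ : (Set.univ : Set (Idx k → ℂ)) ≃ (Set.univ : Set (Idx k → ℂ)))
    (h : IsHolomorphicAut Φ) : ¬ Extends Φ (phi k) := by
  intro hE
  set f : (Idx k → ℂ) → (Idx k → ℂ) := fun p => (Φ ⟨p, Set.mem_univ p⟩ : Idx k → ℂ) with hf
  set g : (Idx k → ℂ) → (Idx k → ℂ) := fun p => (Φ.symm ⟨p, Set.mem_univ p⟩ : Idx k → ℂ) with hg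
  have hfd : Differentiable ℂ f := differentiable_of_hol k h.1
  have hgd : Differentiable ℂ g := differentiable_of_hol k h.2
  have hgf : ∀ p, g (f p) = p := by
    intro p
    simp only [hf, hg]
    have : (⟨((Φ ⟨p, Set.mem_univ p⟩ : (Set.univ : Set (Idx k → ℂ))) : Idx k → ℂ),
      Set.mem_univ _⟩ : (Set.univ : Set (Idx k → ℂ))) = Φ ⟨p, Set.mem_univ p⟩ := rfl
    rw [this, Equiv.symm_apply_apply]
  have hext : ∀ p (hp : p ∈ Xset k), f p = scale k (p (inl 0)) p := by
    intro p hp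
    exact hE ⟨p, hp⟩ ⟨p, Set.mem_univ p⟩ rfl
  have hjac : ∀ ζ : ℂ, (starRingEnd ℂ) ζ * ζ = 1 → jac f (curve k ζ) = (starRingEnd ℂ) ζ := by
    intro ζ hζ
    have hM : LinearMap.toMatrix' (fderiv ℂ f (curve k ζ)).toLinearMap
        = Matrix.diagonal (eig k ζ) := by
      ext a i
      rw [LinearMap.toMatrix'_apply]
      change (fderiv ℂ f (curve k ζ) (Pi.single i 1)) a = _
      rw [fderiv_apply_eq hfd]
      have h1 : ∀ s : ℂ, f (curve k ζ + s • (Pi.single i 1 : Idx k → ℂ)) a
          = curve k ζ a + s * (eig k ζ i * (Pi.single i 1 : Idx k → ℂ) a) := by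
        intro s
        rw [hext _ (mem_line k hζ i s), scale_line]
        simp only [Pi.add_apply, Pi.smul_apply, smul_eq_mul]
        ring
      simp only [h1]
      have h2 : HasDerivAt (fun s : ℂ => curve k ζ a + s * (eig k ζ i * (Pi.single i 1 : Idx k → ℂ) a))
          (eig k ζ i * (Pi.single i 1 : Idx k → ℂ) a) 0 := by
        have := ((hasDerivAt_id (0 : ℂ)).mul_const
          (eig k ζ i * (Pi.single i 1 : Idx k → ℂ) a)).const_add (curve k ζ a)
        simpa using this
      rw [h2.deriv]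
      by_cases hai : a = i
      · subst hai; simp
      · rw [Matrix.diagonal_apply_ne _ hai, Pi.single_eq_of_ne hai, mul_zero]
    unfold jac
    rw [hM, Matrix.det_diagonal]
    simp [eig, Finset.prod_ite_eq']
  refine no_winding (g := fun ζ => jac f (curve k ζ)) (h := 1) (R := 1)
    ((jac_continuous hfd).comp (continuous_curve k)) (fun ζ => jac_ne_zero hfd hgd hgf _)
    one_pos ?_
  intro ζ hζ
  have h1 : (starRingEnd ℂ) ζ * ζ = 1 := by
    rw [Complex.conj_mul', hζ]; norm_num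
  rw [hjac ζ h1, mul_comm ζ, h1]
  simp

/-- Main result. `Z = ℂ^(k+3)` is an affine-algebraic manifold with the algebraic overshear density
property, and the algebraic automorphism `(x, y; z_0, z_1, ...) ↦ (x, y; x z_0, z_1, ...)` of the
two-dimensional subvariety `X` does not extend to a holomorphic automorphism of `ℂ^(k+3)`. -/
theorem result (k : ℕ) :
    IsAffineManifold (Set.univ : Set (Idx k → ℂ)) ∧ HasAOSDP (Set.univ : Set (Idx k → ℂ)) ∧
      IsSubvariety (Xset k) Set.univ ∧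
      ∃ φ : Xset k ≃ Xset k, IsAlgebraicIso φ ∧
        (∀ p : Xset k, ∀ i, (φ p : Idx k → ℂ) i
          = if i = inr 0 then (p : Idx k → ℂ) (inl 0) * (p : Idx k → ℂ) i
            else (p : Idx k → ℂ) i) ∧
        ∀ Φ : (Set.univ : Set (Idx k → ℂ)) ≃ (Set.univ : Set (Idx k → ℂ)),
          IsHolomorphicAut Φ → ¬ Extends Φ φ :=
  ⟨manifold_univ k, aosdp_univ k, ⟨algebraic_X k, Set.subset_univ _⟩,
    phi k, phi_alg k, fun _ _ => rfl, no_ext k⟩

end Final

end Pool.Agent.Results.MP_563419_an.AffineSpace
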